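import Mathlib

namespace Pool.Agent.Results.MP_57f692_ag.PosIntervals

open Polynomial

/-- `Σ`: the finite sums `∑ a_j h_j ^ 2` with `a_j` a non-negative rational and `h_j ∈ ℚ[x]`. -/
def SumSq : Set ℚ[X] :=
  {p | ∃ (n : ℕ) (a : Fin n → ℚ) (h : Fin n → ℚ[X]),
    (∀ j, 0 ≤ a j) ∧ p = ∑ j, C (a j) * h j ^ 2}

/-- `T_S` for `S = {g_1, ..., g_s}`: the preordering of `ℚ[x]` generated by the `g_i`, i.e. the set
of all sums `∑_e σ_e ∏_{i ∈ e} g_i` over the subsets `e` of the index set, with all `σ_e ∈ Σ`. -/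
def preordering {s : ℕ} (g : Fin s → ℚ[X]) : Set ℚ[X] :=
  {p | ∃ σ : Finset (Fin s) → ℚ[X], (∀ e, σ e ∈ SumSq) ∧ p = ∑ e, σ e * ∏ i ∈ e, g i}

/-- `Pos(K)`: the polynomials `f ∈ ℚ[x]` with `f(t) ≥ 0` for all `t ∈ K`. -/
def Pos (K : Set ℝ) : Set ℚ[X] := {f | ∀ t ∈ K, 0 ≤ aeval t f}

/-! ### Closure properties -/

lemma zero_mem_SumSq : (0 : ℚ[X]) ∈ SumSq :=
  ⟨0, Fin.elim0, Fin.elim0, fun j => j.elim0, by simp⟩

lemma add_mem_SumSq {p q : ℚ[X]} (hp : p ∈ SumSq) (hq : q ∈ SumSq) : p + q ∈ SumSq := by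
  obtain ⟨n, a, h, ha, rfl⟩ := hp
  obtain ⟨m, b, k, hb, rfl⟩ := hq
  refine ⟨n + m, Fin.append a b, Fin.append h k, ?_, ?_⟩
  · intro j
    refine Fin.addCases (fun i => ?_) (fun i => ?_) j
    · simpa using ha i
    · simpa using hb i
  · rw [Fin.sum_univ_add]
    simp

lemma cmul_sq_mem_SumSq {c : ℚ} (hc : 0 ≤ c) (h : ℚ[X]) : C c * h ^ 2 ∈ SumSq :=
  ⟨1, fun _ => c, fun _ => h, fun _ => hc, by simp⟩

lemma sum_mem_SumSq {ι : Type*} (s : Finset ι) (f : ι → ℚ[X]) (hf : ∀ i ∈ s, f i ∈ SumSq) :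
    ∑ i ∈ s, f i ∈ SumSq := by
  classical
  induction s using Finset.induction_on with
  | empty => simpa using zero_mem_SumSq
  | insert i s his ih =>
    rw [Finset.sum_insert his]
    exact add_mem_SumSq (hf i (Finset.mem_insert_self i s))
      (ih fun j hj => hf j (Finset.mem_insert_of_mem hj))

lemma mul_mem_SumSq {p q : ℚ[X]} (hp : p ∈ SumSq) (hq : q ∈ SumSq) : p * q ∈ SumSq := by
  obtain ⟨n, a, h, ha, rfl⟩ := hp
  obtain ⟨m, b, k, hb, rfl⟩ := hq
  rw [Finset.sum_mul_sum]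
  refine sum_mem_SumSq _ _ fun i _ => sum_mem_SumSq _ _ fun j _ => ?_
  have : C (a i) * h i ^ 2 * (C (b j) * k j ^ 2) = C (a i * b j) * (h i * k j) ^ 2 := by
    rw [C_mul]; ring
  rw [this]
  exact cmul_sq_mem_SumSq (mul_nonneg (ha i) (hb j)) _

lemma SumSq_nonneg {p : ℚ[X]} (hp : p ∈ SumSq) (t : ℝ) : 0 ≤ aeval t p := by
  obtain ⟨n, a, h, ha, rfl⟩ := hp
  rw [map_sum]
  refine Finset.sum_nonneg fun j _ => ?_
  rw [map_mul, map_pow, aeval_C]
  have : (0 : ℝ) ≤ (algebraMap ℚ ℝ) (a j) := by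
    simpa using (ha j)
  positivity

/-- The closure properties of a preordering. -/
structure IsPre (T : Set ℚ[X]) : Prop where
  add : ∀ {p q}, p ∈ T → q ∈ T → p + q ∈ T
  mul : ∀ {p q}, p ∈ T → q ∈ T → p * q ∈ T
  sq : ∀ p : ℚ[X], p ^ 2 ∈ T
  const : ∀ {c : ℚ}, 0 ≤ c → C c ∈ T

lemma zero_mem_preordering {s : ℕ} (g : Fin s → ℚ[X]) : (0 : ℚ[X]) ∈ preordering g :=
  ⟨fun _ => 0, fun _ => zero_mem_SumSq, by simp⟩

lemma add_mem_preordering {s : ℕ} {g : Fin s → ℚ[X]} {p q : ℚ[X]} (hp : p ∈ preordering g)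
    (hq : q ∈ preordering g) : p + q ∈ preordering g := by
  obtain ⟨σ, hσ, rfl⟩ := hp
  obtain ⟨τ, hτ, rfl⟩ := hq
  refine ⟨fun e => σ e + τ e, fun e => add_mem_SumSq (hσ e) (hτ e), ?_⟩
  rw [← Finset.sum_add_distrib]
  refine Finset.sum_congr rfl fun e _ => ?_
  ring

lemma sum_mem_preordering {s : ℕ} {g : Fin s → ℚ[X]} {ι : Type*} (A : Finset ι) (f : ι → ℚ[X])
    (hf : ∀ i ∈ A, f i ∈ preordering g) : ∑ i ∈ A, f i ∈ preordering g := by
  classical
  induction A using Finset.induction_on with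
  | empty => simpa using zero_mem_preordering g
  | insert i A hi ih =>
    rw [Finset.sum_insert hi]
    exact add_mem_preordering (hf i (Finset.mem_insert_self i A))
      (ih fun j hj => hf j (Finset.mem_insert_of_mem hj))

lemma term_mem_preordering {s : ℕ} {g : Fin s → ℚ[X]} (e : Finset (Fin s)) {p : ℚ[X]}
    (hp : p ∈ SumSq) : p * ∏ i ∈ e, g i ∈ preordering g := by
  refine ⟨fun e' => if e' = e then p else 0, fun e' => ?_, ?_⟩
  · dsimp only
    split_ifs
    · exact hp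
    · exact zero_mem_SumSq
  · rw [Finset.sum_eq_single e]
    · simp
    · intro b _ hb
      simp [hb]
    · intro h
      exact absurd (Finset.mem_univ _) h

lemma mul_mem_preordering {s : ℕ} {g : Fin s → ℚ[X]} {p q : ℚ[X]} (hp : p ∈ preordering g)
    (hq : q ∈ preordering g) : p * q ∈ preordering g := by
  obtain ⟨σ, hσ, rfl⟩ := hp
  obtain ⟨τ, hτ, rfl⟩ := hq
  rw [Finset.sum_mul_sum]
  refine sum_mem_preordering _ _ fun e _ => sum_mem_preordering _ _ fun e' _ => ?_
  have key : (∏ i ∈ e, g i) * (∏ i ∈ e', g i) =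
      (∏ i ∈ e ∩ e', g i) ^ 2 * ∏ i ∈ (e \ e') ∪ (e' \ e), g i := by
    rw [Finset.prod_union (by
      rw [Finset.disjoint_left]
      intro x hx hx'
      simp only [Finset.mem_sdiff] at hx hx'
      exact hx'.2 hx.1)]
    have h1 : ∏ i ∈ e, g i = (∏ i ∈ e ∩ e', g i) * ∏ i ∈ e \ e', g i := by
      rw [mul_comm, ← Finset.prod_union (Finset.disjoint_sdiff_inter e e'),
        Finset.sdiff_union_inter]
    have h2 : ∏ i ∈ e', g i = (∏ i ∈ e ∩ e', g i) * ∏ i ∈ e' \ e, g i := by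
      rw [Finset.inter_comm, mul_comm, ← Finset.prod_union (Finset.disjoint_sdiff_inter e' e),
        Finset.sdiff_union_inter]
    rw [h1, h2]
    ring
  have : σ e * (∏ i ∈ e, g i) * (τ e' * ∏ i ∈ e', g i) =
      (σ e * τ e' * (C 1 * (∏ i ∈ e ∩ e', g i) ^ 2)) * ∏ i ∈ (e \ e') ∪ (e' \ e), g i := by
    calc _ = σ e * τ e' * ((∏ i ∈ e, g i) * (∏ i ∈ e', g i)) := by ring
      _ = _ := by rw [key, C_1]; ring
  rw [this]
  exact term_mem_preordering _
    (mul_mem_SumSq (mul_mem_SumSq (hσ e) (hτ e')) (cmul_sq_mem_SumSq zero_le_one _))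

lemma SumSq_subset_preordering {s : ℕ} (g : Fin s → ℚ[X]) {p : ℚ[X]} (hp : p ∈ SumSq) :
    p ∈ preordering g := by
  simpa using term_mem_preordering (g := g) ∅ hp

lemma preordering_isPre {s : ℕ} (g : Fin s → ℚ[X]) : IsPre (preordering g) where
  add := add_mem_preordering
  mul := mul_mem_preordering
  sq p := SumSq_subset_preordering g (by simpa using cmul_sq_mem_SumSq zero_le_one p)
  const {c} hc := SumSq_subset_preordering g (by simpa using cmul_sq_mem_SumSq hc 1)

lemma gen_mem_preordering {s : ℕ} (g : Fin s → ℚ[X]) (i : Fin s) : g i ∈ preordering g := by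
  have h1 : (1 : ℚ[X]) ∈ SumSq := by simpa using cmul_sq_mem_SumSq zero_le_one (1 : ℚ[X])
  simpa using term_mem_preordering (g := g) {i} h1

lemma preordering_subset_Pos {s : ℕ} {g : Fin s → ℚ[X]} {K : Set ℝ} (hS : ∀ i, g i ∈ Pos K) :
    preordering g ⊆ Pos K := by
  rintro p ⟨σ, hσ, rfl⟩ t ht
  rw [map_sum]
  refine Finset.sum_nonneg fun e _ => ?_
  rw [map_mul, map_prod]
  exact mul_nonneg (SumSq_nonneg (hσ e) t) (Finset.prod_nonneg fun i _ => hS i t ht)

/-! ### Bernstein coefficients -/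

lemma bern_aux (N d k : ℕ) (hd : d < N) (hk : k ≤ N) : ∀ j : ℕ, j ≤ d →
    |(k.descFactorial j : ℝ) / (N.descFactorial j : ℝ) - ((k : ℝ) / N) ^ j|
      ≤ j * ((d : ℝ) / ((N : ℝ) - d)) ∧
    0 ≤ (k.descFactorial j : ℝ) / (N.descFactorial j : ℝ) ∧
    (k.descFactorial j : ℝ) / (N.descFactorial j : ℝ) ≤ 1 := by
  have hN0 : (0 : ℝ) < N := by exact_mod_cast (Nat.zero_lt_of_lt hd)
  have hNd : (0 : ℝ) < (N : ℝ) - d := by
    have : (d : ℝ) < N := by exact_mod_cast hd
    linarith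
  intro j
  induction j with
  | zero => intro _; simp
  | succ j ih =>
    intro hj
    obtain ⟨h1, h2, h3⟩ := ih (by omega)
    have hjN : j < N := by omega
    have hNj : (0 : ℝ) < (N : ℝ) - j := by
      have : (j : ℝ) < N := by exact_mod_cast hjN
      linarith
    have hjd : (j : ℝ) ≤ d := by exact_mod_cast (by omega : j ≤ d)
    set r : ℝ := (k.descFactorial j : ℝ) / (N.descFactorial j : ℝ) with hr
    set s : ℝ := ((k - j : ℕ) : ℝ) / ((N : ℝ) - j) with hs
    have hrs : (k.descFactorial (j + 1) : ℝ) / (N.descFactorial (j + 1) : ℝ) = s * r := by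
      rw [Nat.descFactorial_succ, Nat.descFactorial_succ, hr, hs, Nat.cast_mul, Nat.cast_mul,
        Nat.cast_sub hjN.le, mul_div_mul_comm]
    have hkN : (k : ℝ) ≤ N := by exact_mod_cast hk
    have hs0 : 0 ≤ s := by positivity
    have hs1 : s ≤ 1 := by
      rw [hs, div_le_one hNj]
      rcases le_total j k with h | h
      · rw [Nat.cast_sub h]; linarith
      · rw [Nat.sub_eq_zero_of_le h]; simpa using hNj.le
    have ht0 : 0 ≤ (k : ℝ) / N := by positivity
    have ht1 : (k : ℝ) / N ≤ 1 := by rw [div_le_one hN0]; exact hkN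
    have hst : |s - (k : ℝ) / N| ≤ (d : ℝ) / ((N : ℝ) - d) := by
      have e1 : (j : ℝ) / ((N : ℝ) - j) ≤ (d : ℝ) / ((N : ℝ) - d) := by
        rw [div_le_div_iff₀ hNj hNd]
        nlinarith
      refine le_trans ?_ e1
      rcases le_total j k with h | h
      · have : s - (k : ℝ) / N = - ((j * (N - k)) / (N * (N - j))) := by
          rw [hs, Nat.cast_sub h]
          field_simp
          ring
        have hjk : (0 : ℝ) ≤ (j * (N - k)) / (N * (N - j)) := by
          apply div_nonneg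
          · exact mul_nonneg (by positivity) (by linarith)
          · positivity
        rw [this, abs_neg, abs_of_nonneg hjk, div_le_div_iff₀ (by positivity) hNj]
        have : (N : ℝ) - k ≤ N := by
          have : (0 : ℝ) ≤ k := by positivity
          linarith
        have h3 : (0:ℝ) ≤ j := by positivity
        nlinarith [mul_nonneg h3 hNj.le, mul_le_mul_of_nonneg_left this (mul_nonneg h3 hNj.le)]
      · rw [hs, Nat.sub_eq_zero_of_le h, Nat.cast_zero, zero_div, zero_sub, abs_neg,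
          abs_of_nonneg ht0, div_le_div_iff₀ hN0 hNj]
        have : (k : ℝ) ≤ j := by exact_mod_cast h
        have h4 : (0 : ℝ) ≤ k := by positivity
        have h5 : (0 : ℝ) ≤ j := by positivity
        nlinarith
    rw [hrs]
    refine ⟨?_, mul_nonneg hs0 h2, mul_le_one₀ hs1 h2 h3⟩
    have e : s * r - ((k : ℝ) / N) ^ (j + 1) =
        s * (r - ((k : ℝ) / N) ^ j) + (s - (k : ℝ) / N) * ((k : ℝ) / N) ^ j := by ring
    rw [e]
    refine (abs_add_le _ _).trans ?_
    rw [abs_mul, abs_mul, abs_of_nonneg hs0, abs_of_nonneg (pow_nonneg ht0 j)]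
    have f1 : s * |r - ((k : ℝ) / N) ^ j| ≤ j * ((d : ℝ) / ((N : ℝ) - d)) :=
      le_trans (mul_le_of_le_one_left (abs_nonneg _) hs1) h1
    have f2 : |s - (k : ℝ) / N| * ((k : ℝ) / N) ^ j ≤ (d : ℝ) / ((N : ℝ) - d) :=
      le_trans (mul_le_of_le_one_right (abs_nonneg _) (pow_le_one₀ ht0 ht1)) hst
    push_cast
    linarith

lemma X_pow_bern (j M : ℕ) : (X : ℚ[X]) ^ j = ∑ k ∈ Finset.range (j + M + 1),
    C (((j + M).choose k : ℚ) * ((k.descFactorial j : ℚ) / ((j + M).descFactorial j : ℚ))) *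
      (X ^ k * (1 - X) ^ (j + M - k)) := by
  have hD : ((j + M).descFactorial j : ℚ) ≠ 0 := by
    have := Nat.descFactorial_eq_zero_iff_lt (n := j + M) (k := j)
    have h : (j + M).descFactorial j ≠ 0 := by
      intro h; rw [this] at h; omega
    exact_mod_cast h
  rw [add_assoc, Finset.sum_range_add, Finset.sum_eq_zero, zero_add]
  · have h1 : (X : ℚ[X]) ^ j = X ^ j * (X + (1 - X)) ^ M := by simp
    conv_lhs => rw [h1, add_pow, Finset.mul_sum]
    refine Finset.sum_congr rfl fun m hm => ?_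
    rw [Finset.mem_range] at hm
    have hc : (((j + M).choose (j + m) : ℚ) * (((j + m).descFactorial j : ℚ) /
        ((j + M).descFactorial j : ℚ))) = (M.choose m : ℚ) := by
      rw [mul_div_assoc', div_eq_iff hD]
      have := Nat.choose_mul (n := j + M) (k := j + m) (s := j) (by omega)
      rw [Nat.descFactorial_eq_factorial_mul_choose, Nat.descFactorial_eq_factorial_mul_choose]
      have h2 : (j + M - j) = M := by omega
      have h3 : (j + m - j) = m := by omega
      rw [h2, h3] at this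
      have h4 : (((j + M).choose (j + m) * (j + m).choose j : ℕ) : ℚ) =
        (((j + M).choose j * M.choose m : ℕ) : ℚ) := by rw [this]
      push_cast at h4 ⊢
      linear_combination ((j.factorial : ℚ)) * h4
    rw [hc]
    have h5 : j + M - (j + m) = M - m := by omega
    rw [h5, pow_add]
    simp only [map_natCast]
    ring
  · intro k hk
    rw [Finset.mem_range] at hk
    rw [Nat.descFactorial_of_lt hk]
    simp

theorem bernstein_pos (p : ℚ[X]) (hp : ∀ t ∈ Set.Icc (0 : ℝ) 1, 0 < aeval t p) :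
    ∃ (N : ℕ) (b : ℕ → ℚ), (∀ k, 0 ≤ b k) ∧
      p = ∑ k ∈ Finset.range (N + 1), C (b k) * (X ^ k * (1 - X) ^ (N - k)) := by
  obtain ⟨t₀, ht₀, hmin⟩ := isCompact_Icc.exists_isMinOn (s := Set.Icc (0:ℝ) 1)
    ⟨0, by simp⟩ (f := fun t : ℝ => aeval t p) (by fun_prop)
  set μ : ℝ := aeval t₀ p with hμ
  have hμ0 : 0 < μ := hp t₀ ht₀
  set d := p.natDegree with hd
  set A : ℝ := ∑ j ∈ Finset.range (d + 1), |(p.coeff j : ℝ)| with hA
  have hA0 : 0 ≤ A := Finset.sum_nonneg fun _ _ => abs_nonneg _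
  obtain ⟨M, hM⟩ := exists_nat_gt (A * d * d / μ)
  have hMμ : A * d * d < M * μ := by
    rwa [div_lt_iff₀ hμ0] at hM
  have hM0 : 0 < M := by
    rcases Nat.eq_zero_or_pos M with h | h
    · rw [h] at hM
      exfalso
      have : 0 ≤ A * d * d / μ := by positivity
      simp at hM
      linarith
    · exact h
  set N := d + M with hN
  have hMR : (0 : ℝ) < M := by exact_mod_cast hM0
  refine ⟨N, fun k => if k ≤ N then ∑ j ∈ Finset.range (d + 1), p.coeff j *
    ((N.choose k : ℚ) * ((k.descFactorial j : ℚ) / (N.descFactorial j : ℚ))) else 0, ?_, ?_⟩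
  · intro k
    dsimp only
    split_ifs with hk
    swap
    · exact le_rfl
    have e : ∑ j ∈ Finset.range (d + 1), p.coeff j *
      ((N.choose k : ℚ) * ((k.descFactorial j : ℚ) / (N.descFactorial j : ℚ))) =
      (N.choose k : ℚ) * ∑ j ∈ Finset.range (d + 1), p.coeff j *
        ((k.descFactorial j : ℚ) / (N.descFactorial j : ℚ)) := by
      rw [Finset.mul_sum]
      exact Finset.sum_congr rfl fun j _ => by ring
    rw [e]
    refine mul_nonneg (by positivity) ?_
    have hR : (0 : ℝ) ≤ ((∑ j ∈ Finset.range (d + 1), p.coeff j *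
        ((k.descFactorial j : ℚ) / (N.descFactorial j : ℚ)) : ℚ) : ℝ) := by
      push_cast
      have ht : (k : ℝ) / N ∈ Set.Icc (0 : ℝ) 1 := by
        have : (0 : ℝ) < N := by rw [hN]; push_cast; positivity
        refine ⟨by positivity, ?_⟩
        rw [div_le_one this]
        exact_mod_cast hk
      have h1 : μ ≤ aeval ((k : ℝ) / N) p := hmin ht
      rw [aeval_eq_sum_range] at h1
      have h2 : ∑ j ∈ Finset.range (d + 1), (p.coeff j : ℝ) *
          ((k.descFactorial j : ℝ) / (N.descFactorial j : ℝ)) ≥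
          ∑ j ∈ Finset.range (d + 1), (p.coeff j • ((k : ℝ) / N) ^ j
            - |(p.coeff j : ℝ)| * (d * (d / M))) := by
        refine Finset.sum_le_sum fun j hj => ?_
        rw [Finset.mem_range] at hj
        obtain ⟨b1, -, -⟩ := bern_aux N d k (by omega) hk j (by omega)
        have hNd : (N : ℝ) - d = M := by rw [hN]; push_cast; ring
        rw [hNd] at b1
        have hjd : (j : ℝ) ≤ d := by exact_mod_cast (by omega : j ≤ d)
        have b2 : |(k.descFactorial j : ℝ) / (N.descFactorial j : ℝ) - ((k : ℝ) / N) ^ j| ≤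
            d * (d / M) := b1.trans (mul_le_mul_of_nonneg_right hjd (by positivity))
        have b3 : -( |(p.coeff j : ℝ)| * (d * (d / M))) ≤ (p.coeff j : ℝ) *
            ((k.descFactorial j : ℝ) / (N.descFactorial j : ℝ) - ((k : ℝ) / N) ^ j) := by
          refine neg_le_of_abs_le ?_
          rw [abs_mul]
          exact mul_le_mul_of_nonneg_left b2 (abs_nonneg _)
        rw [Rat.smul_def]
        linarith
      rw [Finset.sum_sub_distrib, ← Finset.sum_mul] at h2
      have h3 : A * (d * (d / M)) < μ := by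
        have : A * (d * (d / M)) = A * d * d / M := by ring
        rw [this, div_lt_iff₀ hMR]
        linarith
      linarith
    exact_mod_cast hR
  · conv_lhs => rw [p.as_sum_range_C_mul_X_pow]
    have e : ∀ j ∈ Finset.range (d + 1), C (p.coeff j) * X ^ j =
        ∑ k ∈ Finset.range (N + 1), C (p.coeff j * ((N.choose k : ℚ) *
          ((k.descFactorial j : ℚ) / (N.descFactorial j : ℚ)))) * (X ^ k * (1 - X) ^ (N - k)) := by
      intro j hj
      rw [Finset.mem_range] at hj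
      have h := X_pow_bern j (N - j)
      have h' : j + (N - j) = N := by omega
      rw [h'] at h
      rw [h, Finset.mul_sum]
      refine Finset.sum_congr rfl fun k _ => ?_
      rw [C_mul (a := p.coeff j)]
      ring
    rw [Finset.sum_congr rfl e, Finset.sum_comm]
    refine Finset.sum_congr rfl fun k hk => ?_
    rw [Finset.mem_range] at hk
    have hk' : k ≤ N := by omega
    simp only [hk', if_true]
    rw [map_sum, Finset.sum_mul]

/-! ### Strict positivity -/

lemma IsPre.zero {T : Set ℚ[X]} (hT : IsPre T) : (0 : ℚ[X]) ∈ T := by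
  simpa using hT.sq 0

lemma IsPre.one {T : Set ℚ[X]} (hT : IsPre T) : (1 : ℚ[X]) ∈ T := by
  simpa using hT.sq 1

lemma IsPre.sum {T : Set ℚ[X]} (hT : IsPre T) {ι : Type*} (s : Finset ι) (f : ι → ℚ[X])
    (hf : ∀ i ∈ s, f i ∈ T) : ∑ i ∈ s, f i ∈ T := by
  classical
  induction s using Finset.induction_on with
  | empty => simpa using hT.zero
  | insert i s his ih =>
    rw [Finset.sum_insert his]
    exact hT.add (hf i (Finset.mem_insert_self i s))
      (ih fun j hj => hf j (Finset.mem_insert_of_mem hj))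

lemma IsPre.pow {T : Set ℚ[X]} (hT : IsPre T) {p : ℚ[X]} (hp : p ∈ T) (n : ℕ) : p ^ n ∈ T := by
  induction n with
  | zero => simpa using hT.one
  | succ n ih => rw [pow_succ]; exact hT.mul ih hp

theorem comp_mem_of_pos {T : Set ℚ[X]} (hT : IsPre T) {y : ℚ[X]} (hy : y ∈ T) (hy1 : 1 - y ∈ T)
    (p : ℚ[X]) (hp : ∀ t ∈ Set.Icc (0 : ℝ) 1, 0 < aeval t p) : p.comp y ∈ T := by
  obtain ⟨N, b, hb, hpb⟩ := bernstein_pos p hp
  rw [hpb, Polynomial.sum_comp]
  refine hT.sum _ _ fun k _ => ?_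
  simp only [mul_comp, C_comp, pow_comp, X_comp, sub_comp, one_comp]
  exact hT.mul (hT.const (hb k)) (hT.mul (hT.pow hy k) (hT.pow hy1 (N - k)))

theorem mem_of_pos_rat {T : Set ℚ[X]} (hT : IsPre T) {α β : ℚ} (hαβ : α < β)
    (h1 : X - C α ∈ T) (h2 : C β - X ∈ T) (h : ℚ[X])
    (hpos : ∀ t ∈ Set.Icc (α : ℝ) β, 0 < aeval t h) : h ∈ T := by
  have hd : 0 < β - α := sub_pos.2 hαβ
  have hdne : β - α ≠ 0 := hd.ne'
  set y : ℚ[X] := C (β - α)⁻¹ * (X - C α) with hy
  have e1 : 1 - y = C (β - α)⁻¹ * (C β - X) := by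
    have : (1 : ℚ[X]) = C (β - α)⁻¹ * C (β - α) := by
      rw [← C_mul, inv_mul_cancel₀ hdne, C_1]
    rw [hy]
    conv_lhs => rw [this]
    rw [C_sub]
    ring
  have hyT : y ∈ T := hT.mul (hT.const (inv_nonneg.2 hd.le)) h1
  have hyT1 : 1 - y ∈ T := by
    rw [e1]; exact hT.mul (hT.const (inv_nonneg.2 hd.le)) h2
  have := comp_mem_of_pos hT hyT hyT1 (h.comp (C α + C (β - α) * X)) ?_
  · rw [comp_assoc] at this
    have e2 : (C α + C (β - α) * X).comp y = X := by
      simp only [add_comp, C_comp, mul_comp, X_comp]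
      rw [hy, ← mul_assoc, ← C_mul, mul_inv_cancel₀ hdne, C_1]
      ring
    rwa [e2, comp_X] at this
  · intro t ht
    rw [aeval_comp]
    apply hpos
    simp only [map_add, map_mul, aeval_C, aeval_X, eq_ratCast]
    have hdR : (0 : ℝ) < ((β - α : ℚ) : ℝ) := by exact_mod_cast hd
    have e3 : (β : ℝ) = (α : ℝ) + ((β - α : ℚ) : ℝ) := by push_cast; ring
    refine ⟨?_, ?_⟩
    · have := mul_nonneg hdR.le ht.1
      linarith
    · have := mul_le_mul_of_nonneg_left ht.2 hdR.le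
      linarith

theorem mem_of_pos {T : Set ℚ[X]} (hT : IsPre T) {a b : ℝ} (hab : a < b)
    (hα : ∀ α : ℚ, (α : ℝ) < a → X - C α ∈ T) (hβ : ∀ β : ℚ, b < (β : ℝ) → C β - X ∈ T)
    (h : ℚ[X]) (hpos : ∀ t ∈ Set.Icc a b, 0 < aeval t h) : h ∈ T := by
  have hcont : Continuous fun t : ℝ => aeval t h := by fun_prop
  have hopen : IsOpen {t : ℝ | 0 < aeval t h} := isOpen_lt continuous_const hcont
  obtain ⟨δ₁, hδ₁, h₁⟩ := Metric.isOpen_iff.1 hopen a (hpos a ⟨le_rfl, hab.le⟩)
  obtain ⟨δ₂, hδ₂, h₂⟩ := Metric.isOpen_iff.1 hopen b (hpos b ⟨hab.le, le_rfl⟩)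
  obtain ⟨α, hα1, hα2⟩ := exists_rat_btwn (show a - δ₁ < a by linarith)
  obtain ⟨β, hβ1, hβ2⟩ := exists_rat_btwn (show b < b + δ₂ by linarith)
  refine mem_of_pos_rat hT (α := α) (β := β) ?_ (hα α hα2) (hβ β hβ1) h ?_
  · have : (α : ℝ) < β := by linarith
    exact_mod_cast this
  · intro t ht
    rcases lt_or_ge t a with hta | hta
    · apply h₁
      rw [Metric.mem_ball, Real.dist_eq, abs_lt]
      constructor <;> linarith [ht.1]
    · rcases lt_or_ge b t with htb | htb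
      · apply h₂
        rw [Metric.mem_ball, Real.dist_eq, abs_lt]
        constructor <;> linarith [ht.2]
      · exact hpos t ⟨hta, htb⟩

/-! ### Squarefree part -/

lemma exists_sq_mul_squarefree : ∀ (n : ℕ) (f : ℚ[X]), f ≠ 0 → f.natDegree ≤ n →
    ∃ g h : ℚ[X], f = g ^ 2 * h ∧ Squarefree h := by
  intro n
  induction n with
  | zero =>
    intro f hf hn
    refine ⟨1, f, by ring, ?_⟩
    have hu : IsUnit f := by
      rw [isUnit_iff_degree_eq_zero, degree_eq_natDegree hf]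
      simp [Nat.le_zero.1 hn]
    exact hu.squarefree
  | succ n ih =>
    intro f hf hn
    by_cases hsq : Squarefree f
    · exact ⟨1, f, by ring, hsq⟩
    · rw [Squarefree] at hsq
      push Not at hsq
      obtain ⟨p, ⟨q, hq⟩, hp⟩ := hsq
      have hp0 : p ≠ 0 := by
        rintro rfl; apply hf; rw [hq]; ring
      have hq0 : q ≠ 0 := by
        rintro rfl; apply hf; rw [hq]; ring
      have hpd : 0 < p.natDegree := by
        rw [Nat.pos_iff_ne_zero]
        intro h0
        apply hp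
        rw [isUnit_iff_degree_eq_zero, degree_eq_natDegree hp0, h0]
        rfl
      have hdeg : f.natDegree = p.natDegree + p.natDegree + q.natDegree := by
        rw [hq, natDegree_mul (mul_ne_zero hp0 hp0) hq0, natDegree_mul hp0 hp0]
      obtain ⟨g, h, hgh, hh⟩ := ih q hq0 (by omega)
      exact ⟨p * g, h, by rw [hq, hgh]; ring, hh⟩

/-- A squarefree rational polynomial which is non-negative on `(a, b)` has no zero there. -/
lemma pos_of_squarefree {h : ℚ[X]} (hh : Squarefree h) {a b : ℝ}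
    (hnn : ∀ t ∈ Set.Ioo a b, 0 ≤ aeval t h) : ∀ t ∈ Set.Ioo a b, 0 < aeval t h := by
  intro t ht
  refine lt_of_le_of_ne (hnn t ht) fun h0 => ?_
  have hsep : h.Separable := PerfectField.separable_iff_squarefree.2 hh
  obtain ⟨u, v, huv⟩ := hsep
  have hloc : IsLocalMin (fun s : ℝ => aeval s h) t := by
    filter_upwards [isOpen_Ioo.mem_nhds ht] with s hs
    rw [← h0]
    exact hnn s hs
  have hder : HasDerivAt (fun s : ℝ => aeval s h) (aeval t (derivative h)) t :=
    h.hasDerivAt_aeval t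
  have h1 : aeval t (derivative h) = (0 : ℝ) := hloc.hasDerivAt_eq_zero hder
  have h2 := congrArg (aeval t) huv
  simp only [map_add, map_mul, map_one] at h2
  rw [h1, ← h0] at h2
  simp at h2

/-- The abstract form of the theorem, for one interval and one preordering. -/
theorem Pos_subset {T : Set ℚ[X]} (hT : IsPre T) {a b : ℝ} (hab : a < b) {pa pb : ℚ[X]}
    (hpa : pa ∈ T) (hpb : pb ∈ T)
    (hpa0 : ∀ t ∈ Set.Ioo a b, 0 < aeval t pa) (hpb0 : ∀ t ∈ Set.Ioo a b, 0 < aeval t pb)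
    (hda : ∀ f : ℚ[X], aeval a f = 0 → pa ∣ f) (hdb : ∀ f : ℚ[X], aeval b f = 0 → pb ∣ f)
    (hra : aeval a pa = 0) (hrb : aeval b pb = 0)
    (hα : ∀ α : ℚ, (α : ℝ) < a → X - C α ∈ T) (hβ : ∀ β : ℚ, b < (β : ℝ) → C β - X ∈ T) :
    Pos (Set.Icc a b) ⊆ T := by
  -- squarefree and positive inside, non vanishing at the end points
  have key : ∀ h : ℚ[X], (∀ t ∈ Set.Ioo a b, 0 < aeval t h) → aeval a h ≠ 0 → aeval b h ≠ 0 →
      h ∈ T := by
    intro h hpos ha hb
    refine mem_of_pos hT hab hα hβ h fun t ht => ?_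
    have hcont : Continuous fun t : ℝ => aeval t h := by fun_prop
    have hnn : ∀ t ∈ Set.Icc a b, 0 ≤ aeval t h := by
      intro t ht
      have hcl : IsClosed {t : ℝ | 0 ≤ aeval t h} := isClosed_le continuous_const hcont
      have hsub : closure (Set.Ioo a b) ⊆ {t : ℝ | 0 ≤ aeval t h} :=
        hcl.closure_subset_iff.2 fun s hs => (hpos s hs).le
      rw [closure_Ioo hab.ne] at hsub
      exact hsub ht
    rcases eq_or_lt_of_le ht.1 with h1 | h1
    · rw [← h1]
      exact lt_of_le_of_ne (hnn a ⟨le_rfl, hab.le⟩) (Ne.symm ha)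
    · rcases eq_or_lt_of_le ht.2 with h2 | h2
      · rw [h2]
        exact lt_of_le_of_ne (hnn b ⟨hab.le, le_rfl⟩) (Ne.symm hb)
      · exact hpos t ⟨h1, h2⟩
  have nu : ∀ {p : ℚ[X]} {c : ℝ}, aeval c p = 0 → ¬ IsUnit p := by
    intro p c hc hu
    obtain ⟨q, hq⟩ := hu.exists_right_inv
    have := congrArg (aeval c) hq
    rw [map_mul, hc, zero_mul, map_one] at this
    exact zero_ne_one this
  -- split off the end point `b`
  have key2 : ∀ h : ℚ[X], Squarefree h → (∀ t ∈ Set.Ioo a b, 0 < aeval t h) → aeval a h ≠ 0 →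
      h ∈ T := by
    intro h hsq hpos ha
    by_cases hb : aeval b h = 0
    · obtain ⟨k, rfl⟩ := hdb h hb
      refine hT.mul hpb (key k ?_ ?_ ?_)
      · intro t ht
        have := hpos t ht
        rw [map_mul] at this
        exact (pos_iff_pos_of_mul_pos this).1 (hpb0 t ht)
      · intro h0
        apply ha
        rw [map_mul, h0, mul_zero]
      · intro h0
        obtain ⟨l, rfl⟩ := hdb k h0
        exact nu hrb (hsq pb ⟨l, by ring⟩)
    · exact key h hpos ha hb
  have key3 : ∀ h : ℚ[X], Squarefree h → (∀ t ∈ Set.Ioo a b, 0 < aeval t h) → h ∈ T := by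
    intro h hsq hpos
    by_cases ha : aeval a h = 0
    · obtain ⟨k, rfl⟩ := hda h ha
      refine hT.mul hpa (key2 k (hsq.of_mul_right) ?_ ?_)
      · intro t ht
        have := hpos t ht
        rw [map_mul] at this
        exact (pos_iff_pos_of_mul_pos this).1 (hpa0 t ht)
      · intro h0
        obtain ⟨l, rfl⟩ := hda k h0
        exact nu hra (hsq pa ⟨l, by ring⟩)
    · exact key2 h hsq hpos ha
  intro f hf
  by_cases hf0 : f = 0
  · rw [hf0]; exact hT.zero
  obtain ⟨g, h, hgh, hsq⟩ := exists_sq_mul_squarefree f.natDegree f hf0 le_rfl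
  rw [hgh]
  refine hT.mul (hT.sq g) (key3 h hsq (pos_of_squarefree hsq ?_))
  intro t ht
  -- by density: `g` has finitely many zeros
  by_contra hneg
  push Not at hneg
  have hg0 : g ≠ 0 := by
    rintro rfl; apply hf0; rw [hgh]; ring
  have hcont : Continuous fun t : ℝ => aeval t h := by fun_prop
  have hop : IsOpen ({s : ℝ | aeval s h < 0} ∩ Set.Ioo a b) :=
    (isOpen_lt hcont continuous_const).inter isOpen_Ioo
  have hinf : ({s : ℝ | aeval s h < 0} ∩ Set.Ioo a b).Infinite :=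
    infinite_of_mem_nhds t (hop.mem_nhds ⟨hneg, ht⟩)
  have hfin : {s : ℝ | aeval s g = 0}.Finite := by
    have hmap : g.map (algebraMap ℚ ℝ) ≠ 0 :=
      (Polynomial.map_ne_zero_iff (algebraMap ℚ ℝ).injective).2 hg0
    refine (g.map (algebraMap ℚ ℝ)).roots.toFinset.finite_toSet.subset ?_
    intro s hs
    simp only [Set.mem_ofPred_eq] at hs
    simp only [Finset.mem_coe, Multiset.mem_toFinset, mem_roots hmap, IsRoot.def]
    rwa [eval_map_algebraMap]
  obtain ⟨s, ⟨hs1, hs2⟩, hs3⟩ := (hinf.sdiff hfin).nonempty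
  have h1 := hf s ⟨hs2.1.le, hs2.2.le⟩
  rw [hgh, map_mul, map_pow] at h1
  have h2 : 0 < (aeval s g) ^ 2 := by
    have : aeval s g ≠ 0 := hs3
    positivity
  have h3 : (aeval s g) ^ 2 * aeval s h < 0 := mul_neg_of_pos_of_neg h2 hs1
  linarith

/-! ### Membership of the linear polynomials -/

lemma iterate_mem {T : Set ℚ[X]} (hT : IsPre T) {u q : ℚ[X]} {M ε C₀ : ℚ} (hε : 0 < ε)
    (hεM : ε ≤ M) (hC : 0 ≤ C₀) (h1 : q * u ∈ T) (h2 : C M - q ∈ T) (h3 : q - C ε ∈ T)
    (h4 : u + C C₀ ∈ T) {η : ℚ} (hη : 0 < η) : u + C η ∈ T := by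
  have hM : 0 < M := hε.trans_le hεM
  have hr0 : 0 ≤ 1 - ε / M := by
    rw [sub_nonneg, div_le_one hM]; exact hεM
  have hr1 : 1 - ε / M < 1 := by
    have : 0 < ε / M := div_pos hε hM
    linarith
  have step : ∀ n : ℕ, u + C (C₀ * (1 - ε / M) ^ n) ∈ T := by
    intro n
    induction n with
    | zero => simpa using h4
    | succ n ih =>
      set c := C₀ * (1 - ε / M) ^ n with hc
      have hc0 : 0 ≤ c := mul_nonneg hC (pow_nonneg hr0 n)
      have e : u + C (C₀ * (1 - ε / M) ^ (n + 1)) =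
          C M⁻¹ * (((C M - q) * (u + C c) + q * u) + C c * (q - C ε)) := by
        have hMC : C M⁻¹ * C M = (1 : ℚ[X]) := by rw [← C_mul, inv_mul_cancel₀ hM.ne', C_1]
        have e1 : C (C₀ * (1 - ε / M) ^ (n + 1)) = C c * (1 - C ε * C M⁻¹) := by
          rw [← C_mul, ← C_1, ← C_sub, ← C_mul, hc]
          congr 1
          ring
        rw [e1]
        linear_combination (-u - C c) * hMC
      rw [e]
      exact hT.mul (hT.const (inv_nonneg.2 hM.le))
        (hT.add (hT.add (hT.mul h2 ih) h1) (hT.mul (hT.const hc0) h3))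
  obtain ⟨n, hn⟩ : ∃ n : ℕ, C₀ * (1 - ε / M) ^ n < η := by
    obtain ⟨n, hn⟩ := exists_pow_lt_of_lt_one (show (0 : ℚ) < η / (C₀ + 1) by positivity) hr1
    refine ⟨n, ?_⟩
    rw [lt_div_iff₀ (by positivity)] at hn
    have : 0 ≤ (1 - ε / M) ^ n := pow_nonneg hr0 n
    nlinarith
  have e : u + C η = (u + C (C₀ * (1 - ε / M) ^ n)) + C (η - C₀ * (1 - ε / M) ^ n) := by
    rw [C_sub]; ring
  rw [e]
  exact hT.add (step n) (hT.const (sub_nonneg.2 hn.le))

/-- A variant of `iterate_mem` in which the polynomial itself is obtained. -/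
lemma mem_of_family {T : Set ℚ[X]} (u : ℚ[X]) {δ : ℚ} (hδ : 0 < δ)
    (h : ∀ η : ℚ, 0 < η → (u - C δ) + C η ∈ T) : u ∈ T := by
  simpa using h δ hδ

lemma irreducible_X_pow_sub (p n : ℕ) (hp : p.Prime) (hn : 0 < n) :
    Irreducible (X ^ n - C (p : ℚ)) := by
  have hmonic : (X ^ n - C (p : ℤ)).Monic := monic_X_pow_sub_C _ hn.ne'
  have hdeg : (X ^ n - C (p : ℤ)).degree = (n : WithBot ℕ) := degree_X_pow_sub_C hn _
  have hP : (Ideal.span {(p : ℤ)}).IsPrime := by
    rw [Ideal.span_singleton_prime (by exact_mod_cast hp.ne_zero)]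
    exact Nat.prime_iff_prime_int.1 hp
  have h1 : Irreducible (X ^ n - C (p : ℤ)) := by
    refine irreducible_of_eisenstein_criterion (P := Ideal.span {(p : ℤ)}) hP ?_ ?_ ?_ ?_
      hmonic.isPrimitive
    · rw [hmonic.leadingCoeff, Ideal.mem_span_singleton]
      intro h
      have h2 : (p : ℤ) ∣ ((1 : ℕ) : ℤ) := by simpa using h
      rw [Int.natCast_dvd_natCast] at h2
      exact hp.one_lt.ne' (Nat.dvd_one.1 h2)
    · intro m hm
      rw [hdeg] at hm
      have hm' : m < n := by exact_mod_cast hm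
      rw [coeff_sub, coeff_X_pow, if_neg hm'.ne, zero_sub, Ideal.mem_span_singleton, coeff_C]
      split_ifs
      · exact (dvd_refl _).neg_right
      · simp
    · rw [hdeg]; exact_mod_cast hn
    · rw [coeff_sub, coeff_X_pow, if_neg hn.ne, zero_sub, coeff_C_zero,
        Ideal.span_singleton_pow, Ideal.mem_span_singleton, dvd_neg]
      intro h
      have h2 : ((p ^ 2 : ℕ) : ℤ) ∣ ((p : ℕ) : ℤ) := by simpa using h
      rw [Int.natCast_dvd_natCast] at h2
      have h3 := Nat.le_of_dvd hp.pos h2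
      have h4 := hp.one_lt
      nlinarith
  have h2 := (IsPrimitive.Int.irreducible_iff_irreducible_map_cast hmonic.isPrimitive).1 h1
  simpa using h2

lemma dvd_of_root {p n : ℕ} (hp : p.Prime) (hn : 0 < n) {c : ℝ} (hc : c ^ n = p) {f : ℚ[X]}
    (hf : aeval c f = 0) : X ^ n - C (p : ℚ) ∣ f := by
  have hirr := irreducible_X_pow_sub p n hp hn
  have hmonic : (X ^ n - C (p : ℚ)).Monic := monic_X_pow_sub_C _ hn.ne'
  have hroot : aeval c (X ^ n - C (p : ℚ)) = 0 := by simp [hc]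
  rw [minpoly.eq_of_irreducible_of_monic hirr hroot hmonic]
  exact minpoly.dvd ℚ c hf

lemma dvd_neg_of_root {p n : ℕ} (hp : p.Prime) (hn : 0 < n) {c : ℝ} (hc : c ^ n = p) {f : ℚ[X]}
    (hf : aeval c f = 0) : C (p : ℚ) - X ^ n ∣ f := by
  have := dvd_of_root hp hn hc hf
  rw [← neg_dvd] at this
  simpa using this

/-! ### The three sets -/

lemma linear_of_sq {T : Set ℚ[X]} (hT : IsPre T) {β : ℚ} (hβ : 0 < β)
    (h : C (β ^ 2) - X ^ 2 ∈ T) : C β - X ∈ T ∧ X + C β ∈ T := by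
  constructor
  · have e : (C β - X : ℚ[X]) = C (1 / (2 * β)) * ((C β - X) ^ 2 + (C (β ^ 2) - X ^ 2)) := by
      apply Polynomial.funext
      intro r
      simp only [eval_sub, eval_C, eval_X, eval_mul, eval_pow, eval_add]
      field_simp
      ring
    rw [e]
    exact hT.mul (hT.const (by positivity)) (hT.add (hT.sq _) h)
  · have e : (X + C β : ℚ[X]) = C (1 / (2 * β)) * ((X + C β) ^ 2 + (C (β ^ 2) - X ^ 2)) := by
      apply Polynomial.funext
      intro r
      simp only [eval_sub, eval_C, eval_X, eval_mul, eval_pow, eval_add]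
      field_simp
      ring
    rw [e]
    exact hT.mul (hT.const (by positivity)) (hT.add (hT.sq _) h)

lemma K1_bound {T : Set ℚ[X]} (hT : IsPre T) (hX : X ∈ T) (h : C 2 - X ^ 3 ∈ T) :
    C 2 - X ^ 2 ∈ T ∧ C (3 / 2) - X ∈ T := by
  have a2 : C 2 - X ^ 2 ∈ T := by
    have e : (C 2 - X ^ 2 : ℚ[X]) = (X * (C 2 - X ^ 3) + (X - 1) ^ 2) + (X ^ 2 - 1) ^ 2 := by
      apply Polynomial.funext
      intro r
      simp only [eval_sub, eval_C, eval_X, eval_mul, eval_pow, eval_add, eval_one]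
      ring
    rw [e]
    exact hT.add (hT.add (hT.mul hX h) (hT.sq _)) (hT.sq _)
  refine ⟨a2, ?_⟩
  have e : (C (3 / 2) - X : ℚ[X]) = C (1 / 2) * ((C 2 - X ^ 2) + (X - 1) ^ 2) := by
    apply Polynomial.funext
    intro r
    simp only [eval_sub, eval_C, eval_X, eval_mul, eval_pow, eval_add, eval_one]
    ring
  rw [e]
  exact hT.mul (hT.const (by norm_num)) (hT.add a2 (hT.sq _))

lemma K1_upper {T : Set ℚ[X]} (hT : IsPre T) (hX : X ∈ T) (h : C 2 - X ^ 3 ∈ T) {β : ℚ}
    (hβ0 : 0 < β) (hβ : 2 ≤ β ^ 3) {η : ℚ} (hη : 0 < η) : (C β - X) + C η ∈ T := by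
  obtain ⟨a1, a2⟩ := K1_bound hT hX h
  refine iterate_mem hT (q := X ^ 2 + C β * X + C (β ^ 2)) (M := 2 + 3 / 2 * β + β ^ 2)
    (ε := 3 / 4 * β ^ 2) (C₀ := 3 / 2) (by positivity) (by nlinarith [sq_nonneg β]) (by norm_num)
    ?_ ?_ ?_ ?_ hη
  · have e : (X ^ 2 + C β * X + C (β ^ 2)) * (C β - X) = C (β ^ 3 - 2) + (C 2 - X ^ 3) := by
      apply Polynomial.funext
      intro r
      simp only [eval_sub, eval_C, eval_X, eval_mul, eval_pow, eval_add]
      ring
    rw [e]
    exact hT.add (hT.const (by linarith)) h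
  · have e : C (2 + 3 / 2 * β + β ^ 2) - (X ^ 2 + C β * X + C (β ^ 2)) =
        (C 2 - X ^ 2) + C β * (C (3 / 2) - X) := by
      apply Polynomial.funext
      intro r
      simp only [eval_sub, eval_C, eval_X, eval_mul, eval_pow, eval_add]
      ring
    rw [e]
    exact hT.add a1 (hT.mul (hT.const hβ0.le) a2)
  · have e : X ^ 2 + C β * X + C (β ^ 2) - C (3 / 4 * β ^ 2) = (X + C (β / 2)) ^ 2 := by
      apply Polynomial.funext
      intro r
      simp only [eval_sub, eval_C, eval_X, eval_mul, eval_pow, eval_add]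
      ring
    rw [e]
    exact hT.sq _
  · have e : (C β - X : ℚ[X]) + C (3 / 2) = C β + (C (3 / 2) - X) := by ring
    rw [e]
    exact hT.add (hT.const hβ0.le) a2

lemma K2_lower {T : Set ℚ[X]} (hT : IsPre T) (hX : X ∈ T) (h : X ^ 2 - C 2 ∈ T)
    (h' : C 2 - X ∈ T) {α : ℚ} (hα0 : 0 < α) (hα : α ^ 2 ≤ 2) {η : ℚ} (hη : 0 < η) :
    (X - C α) + C η ∈ T := by
  refine iterate_mem hT (q := X + C α) (M := 2 + α) (ε := α) (C₀ := α) hα0 (by linarith) hα0.le
    ?_ ?_ ?_ ?_ hη
  · have e : (X + C α) * (X - C α) = C (2 - α ^ 2) + (X ^ 2 - C 2) := by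
      apply Polynomial.funext
      intro r
      simp only [eval_sub, eval_C, eval_X, eval_mul, eval_pow, eval_add]
      ring
    rw [e]
    exact hT.add (hT.const (by linarith)) h
  · have e : C (2 + α) - (X + C α) = C 2 - X := by
      rw [C_add]; ring
    rwa [e]
  · simpa using hX
  · simpa using hX

lemma K3_upper {T : Set ℚ[X]} (hT : IsPre T) (h : C 2 - X ^ 4 ∈ T) {β : ℚ}
    (hβ0 : 0 < β) (hβ : 2 ≤ β ^ 4) {η : ℚ} (hη : 0 < η) : (C (β ^ 2) - X ^ 2) + C η ∈ T := by
  have a1 : C (3 / 2) - X ^ 2 ∈ T := by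
    have e : (C (3 / 2) - X ^ 2 : ℚ[X]) = C (1 / 2) * ((C 2 - X ^ 4) + (X ^ 2 - 1) ^ 2) := by
      apply Polynomial.funext
      intro r
      simp only [eval_sub, eval_C, eval_X, eval_mul, eval_pow, eval_add, eval_one]
      ring
    rw [e]
    exact hT.mul (hT.const (by norm_num)) (hT.add h (hT.sq _))
  refine iterate_mem hT (q := X ^ 2 + C (β ^ 2)) (M := 3 / 2 + β ^ 2)
    (ε := β ^ 2) (C₀ := 3 / 2) (by positivity) (by linarith) (by norm_num) ?_ ?_ ?_ ?_ hη
  · have e : (X ^ 2 + C (β ^ 2)) * (C (β ^ 2) - X ^ 2) = C (β ^ 4 - 2) + (C 2 - X ^ 4) := by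
      apply Polynomial.funext
      intro r
      simp only [eval_sub, eval_C, eval_X, eval_mul, eval_pow, eval_add]
      ring
    rw [e]
    exact hT.add (hT.const (by linarith)) h
  · have e : C (3 / 2 + β ^ 2) - (X ^ 2 + C (β ^ 2)) = C (3 / 2) - X ^ 2 := by
      rw [C_add]; ring
    rwa [e]
  · simpa using hT.sq X
  · have e : (C (β ^ 2) - X ^ 2 : ℚ[X]) + C (3 / 2) = C (β ^ 2) + (C (3 / 2) - X ^ 2) := by ring
    rw [e]
    exact hT.add (hT.const (by positivity)) a1

lemma rpow_inv_pow {x : ℝ} (hx : 0 ≤ x) {n : ℕ} (hn : n ≠ 0) : (x ^ ((1 : ℝ) / n)) ^ n = x := by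
  rw [← Real.rpow_natCast, ← Real.rpow_mul hx, one_div, inv_mul_cancel₀ (by exact_mod_cast hn),
    Real.rpow_one]

/-! ### `K_1 = [0, 2^(1/3)]` -/

theorem K1_eq : Pos (Set.Icc (0 : ℝ) (2 ^ ((1 : ℝ) / 3))) = preordering ![X, 2 - X ^ 3] := by
  set b : ℝ := 2 ^ ((1 : ℝ) / 3) with hb
  have hb3 : b ^ 3 = 2 := by
    have := rpow_inv_pow (x := 2) (by norm_num) (n := 3) (by norm_num)
    simpa [hb] using this
  have hb0 : 0 < b := Real.rpow_pos_of_pos (by norm_num) _
  have hT := preordering_isPre ![X, (2 : ℚ[X]) - X ^ 3]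
  have g0 : X ∈ preordering ![X, (2 : ℚ[X]) - X ^ 3] := gen_mem_preordering ![X, 2 - X ^ 3] 0
  have g1 : C 2 - X ^ 3 ∈ preordering ![X, (2 : ℚ[X]) - X ^ 3] :=
    gen_mem_preordering ![X, 2 - X ^ 3] 1
  apply Set.Subset.antisymm
  · refine Pos_subset hT hb0 g0 g1 ?_ ?_ ?_ ?_ ?_ ?_ ?_ ?_
    · intro t ht
      simpa using ht.1
    · intro t ht
      have : t ^ 3 < b ^ 3 := pow_lt_pow_left₀ ht.2 ht.1.le (by norm_num)
      simp only [map_sub, map_pow, aeval_X, aeval_C, eq_ratCast, Rat.cast_ofNat]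
      linarith
    · intro f hf
      rw [X_dvd_iff]
      rw [aeval_def, eval₂_at_zero] at hf
      simpa using hf
    · intro f hf
      exact dvd_neg_of_root (p := 2) (n := 3) Nat.prime_two (by norm_num) (by simpa using hb3) hf
    · simp
    · simp [hb3]
    · intro α hα
      have : (α : ℚ) < 0 := by exact_mod_cast hα
      have e : X - C α = X + C (-α) := by rw [C_neg]; ring
      rw [e]
      exact hT.add g0 (hT.const (by linarith))
    · intro β hβ
      obtain ⟨γ, h1, h2⟩ := exists_rat_btwn hβ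
      have hγ0 : 0 < γ := by exact_mod_cast hb0.trans h1
      have hγβ : γ < β := by exact_mod_cast h2
      refine mem_of_family (C β - X) (δ := β - γ) (by linarith) fun η hη => ?_
      have e : C β - X - C (β - γ) = C γ - X := by rw [C_sub]; ring
      rw [e]
      refine K1_upper hT g0 g1 hγ0 ?_ hη
      have : b ^ 3 ≤ (γ : ℝ) ^ 3 := pow_le_pow_left₀ hb0.le h1.le 3
      rw [hb3] at this
      exact_mod_cast this
  · refine preordering_subset_Pos fun i => ?_
    fin_cases i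
    · intro t ht
      simpa using ht.1
    · intro t ht
      have : t ^ 3 ≤ b ^ 3 := pow_le_pow_left₀ ht.1 ht.2 3
      rw [hb3] at this
      have e2 : aeval t (2 : ℚ[X]) = (2 : ℝ) := map_ofNat _ 2
      simpa [e2] using this

/-! ### `K_2 = [√2, √3]` -/

theorem K2_eq : Pos (Set.Icc √2 √3) = preordering ![X, X ^ 2 - 2, 3 - X ^ 2] := by
  have h20 : (0 : ℝ) < √2 := Real.sqrt_pos.2 (by norm_num)
  have h30 : (0 : ℝ) < √3 := Real.sqrt_pos.2 (by norm_num)
  have h2 : √2 ^ 2 = 2 := Real.sq_sqrt (by norm_num)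
  have h3 : √3 ^ 2 = 3 := Real.sq_sqrt (by norm_num)
  have hab : √2 < √3 := Real.sqrt_lt_sqrt (by norm_num) (by norm_num)
  have hT := preordering_isPre ![X, (X : ℚ[X]) ^ 2 - 2, 3 - X ^ 2]
  have g0 : X ∈ preordering ![X, (X : ℚ[X]) ^ 2 - 2, 3 - X ^ 2] :=
    gen_mem_preordering ![X, X ^ 2 - 2, 3 - X ^ 2] 0
  have g1 : X ^ 2 - C 2 ∈ preordering ![X, (X : ℚ[X]) ^ 2 - 2, 3 - X ^ 2] :=
    gen_mem_preordering ![X, X ^ 2 - 2, 3 - X ^ 2] 1
  have g2 : C 3 - X ^ 2 ∈ preordering ![X, (X : ℚ[X]) ^ 2 - 2, 3 - X ^ 2] :=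
    gen_mem_preordering ![X, X ^ 2 - 2, 3 - X ^ 2] 2
  have hβ : ∀ β : ℚ, √3 < (β : ℝ) → C β - X ∈ preordering ![X, (X : ℚ[X]) ^ 2 - 2, 3 - X ^ 2] := by
    intro β hβ
    have hβ0 : 0 < β := by exact_mod_cast h30.trans hβ
    refine (linear_of_sq hT hβ0 ?_).1
    have e : (C (β ^ 2) - X ^ 2 : ℚ[X]) = C (β ^ 2 - 3) + (C 3 - X ^ 2) := by
      rw [C_sub]; ring
    rw [e]
    refine hT.add (hT.const ?_) g2
    have : √3 ^ 2 ≤ (β : ℝ) ^ 2 := pow_le_pow_left₀ h30.le hβ.le 2
    rw [h3] at this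
    have h' : (3 : ℚ) ≤ β ^ 2 := by exact_mod_cast this
    linarith
  apply Set.Subset.antisymm
  · refine Pos_subset hT hab g1 g2 ?_ ?_ ?_ ?_ ?_ ?_ ?_ hβ
    · intro t ht
      have : √2 ^ 2 < t ^ 2 := pow_lt_pow_left₀ ht.1 h20.le (by norm_num)
      simp only [map_sub, map_pow, aeval_X, aeval_C, eq_ratCast, Rat.cast_ofNat]
      linarith
    · intro t ht
      have : t ^ 2 < √3 ^ 2 := pow_lt_pow_left₀ ht.2 (h20.trans ht.1).le (by norm_num)
      simp only [map_sub, map_pow, aeval_X, aeval_C, eq_ratCast, Rat.cast_ofNat]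
      linarith
    · intro f hf
      exact dvd_of_root (p := 2) (n := 2) Nat.prime_two (by norm_num) (by simp) hf
    · intro f hf
      exact dvd_neg_of_root (p := 3) (n := 2) Nat.prime_three (by norm_num) (by simp) hf
    · simp [h2]
    · simp [h3]
    · intro α hα
      rcases le_or_gt α 0 with h0 | h0
      · have e : X - C α = X + C (-α) := by rw [C_neg]; ring
        rw [e]
        exact hT.add g0 (hT.const (by linarith))
      · obtain ⟨γ, k1, k2⟩ := exists_rat_btwn hα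
        have hαγ : α < γ := by exact_mod_cast k1
        refine mem_of_family (X - C α) (δ := γ - α) (by linarith) fun η hη => ?_
        have e : X - C α - C (γ - α) = X - C γ := by rw [C_sub]; ring
        rw [e]
        refine K2_lower hT g0 g1 (hβ 2 ?_) (by linarith) ?_ hη
        · have : √3 < 2 := by
            rw [Real.sqrt_lt' (by norm_num)]; norm_num
          simpa using this
        · have : (γ : ℝ) ^ 2 ≤ √2 ^ 2 :=
            pow_le_pow_left₀ (by exact_mod_cast (h0.trans hαγ).le) k2.le 2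
          rw [h2] at this
          exact_mod_cast this
  · refine preordering_subset_Pos fun i => ?_
    fin_cases i
    · intro t ht
      simpa using h20.le.trans ht.1
    · intro t ht
      have : √2 ^ 2 ≤ t ^ 2 := pow_le_pow_left₀ h20.le ht.1 2
      rw [h2] at this
      have e2 : aeval t (2 : ℚ[X]) = (2 : ℝ) := map_ofNat _ 2
      simpa [e2] using this
    · intro t ht
      have : t ^ 2 ≤ √3 ^ 2 := pow_le_pow_left₀ (h20.le.trans ht.1) ht.2 2
      rw [h3] at this
      have e2 : aeval t (3 : ℚ[X]) = (3 : ℝ) := map_ofNat _ 3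
      simpa [e2] using this

/-! ### `K_3 = [-2^(1/4), 2^(1/4)]` -/

theorem K3_eq : Pos (Set.Icc (-(2 ^ ((1 : ℝ) / 4))) ((2 : ℝ) ^ ((1 : ℝ) / 4))) =
    preordering ![2 - X ^ 4] := by
  set b : ℝ := 2 ^ ((1 : ℝ) / 4) with hb
  have hb4 : b ^ 4 = 2 := by
    have := rpow_inv_pow (x := 2) (by norm_num) (n := 4) (by norm_num)
    simpa [hb] using this
  have hb0 : 0 < b := Real.rpow_pos_of_pos (by norm_num) _
  have hb4' : (-b) ^ 4 = 2 := by rw [← hb4]; ring
  have hT := preordering_isPre ![(2 : ℚ[X]) - X ^ 4]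
  have g0 : C 2 - X ^ 4 ∈ preordering ![(2 : ℚ[X]) - X ^ 4] :=
    gen_mem_preordering ![2 - X ^ 4] 0
  have hlin : ∀ β : ℚ, b < β → C β - X ∈ preordering ![(2 : ℚ[X]) - X ^ 4] ∧
      X + C β ∈ preordering ![(2 : ℚ[X]) - X ^ 4] := by
    intro β hβ
    obtain ⟨γ, h1, h2⟩ := exists_rat_btwn hβ
    have hγ0 : 0 < γ := by exact_mod_cast hb0.trans h1
    have hγβ : γ < β := by exact_mod_cast h2
    refine linear_of_sq hT (hγ0.trans hγβ) ?_
    refine mem_of_family (C (β ^ 2) - X ^ 2) (δ := β ^ 2 - γ ^ 2) (by nlinarith) fun η hη => ?_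
    have e : C (β ^ 2) - X ^ 2 - C (β ^ 2 - γ ^ 2) = C (γ ^ 2) - X ^ 2 := by rw [C_sub]; ring
    rw [e]
    refine K3_upper hT g0 hγ0 ?_ hη
    have : b ^ 4 ≤ (γ : ℝ) ^ 4 := pow_le_pow_left₀ hb0.le h1.le 4
    rw [hb4] at this
    exact_mod_cast this
  have hpos : ∀ t ∈ Set.Ioo (-b) b, 0 < aeval t (C 2 - X ^ 4 : ℚ[X]) := by
    intro t ht
    have h1 : t ^ 2 < b ^ 2 := by
      rw [sq_lt_sq, abs_lt]
      rw [abs_of_pos hb0]
      exact ht
    have h2 : t ^ 4 < b ^ 4 := by nlinarith [sq_nonneg t, sq_nonneg b]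
    simp only [map_sub, map_pow, aeval_X, aeval_C, eq_ratCast, Rat.cast_ofNat]
    linarith
  apply Set.Subset.antisymm
  · refine Pos_subset hT (by linarith) g0 g0 hpos hpos ?_ ?_ ?_ ?_ ?_ ?_
    · intro f hf
      exact dvd_neg_of_root (p := 2) (n := 4) Nat.prime_two (by norm_num) (by simpa using hb4') hf
    · intro f hf
      exact dvd_neg_of_root (p := 2) (n := 4) Nat.prime_two (by norm_num) (by simpa using hb4) hf
    · simp [hb4']
    · simp [hb4]
    · intro α hα
      have e : X - C α = X + C (-α) := by rw [C_neg]; ring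
      rw [e]
      refine (hlin (-α) ?_).2
      push_cast
      linarith
    · intro β hβ
      exact (hlin β hβ).1
  · refine preordering_subset_Pos fun i => ?_
    fin_cases i
    intro t ht
    have h1 : t ^ 2 ≤ b ^ 2 := by
      rw [sq_le_sq, abs_le, abs_of_pos hb0]
      exact ht
    have h2 : t ^ 4 ≤ b ^ 4 := by nlinarith [sq_nonneg t, sq_nonneg b]
    rw [hb4] at h2
    have e2 : aeval t (2 : ℚ[X]) = (2 : ℝ) := map_ofNat _ 2
    simpa [e2] using h2

/-- **Answer to Q1.** For each of the three compact sets, `Pos(K_i)` is a finitely generated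
preordering of `ℚ[x]`; explicitly
`Pos([0, 2^(1/3)]) = T_{x, 2 - x^3}`, `Pos([√2, √3]) = T_{x, x^2 - 2, 3 - x^2}` and
`Pos([-2^(1/4), 2^(1/4)]) = T_{2 - x^4}`. In particular `x - 1 ∈ T_{x, x^2 - 2, 3 - x^2}`. -/
theorem result :
    Pos (Set.Icc (0 : ℝ) (2 ^ ((1 : ℝ) / 3))) = preordering ![X, 2 - X ^ 3] ∧
    Pos (Set.Icc √2 √3) = preordering ![X, X ^ 2 - 2, 3 - X ^ 2] ∧
    Pos (Set.Icc (-(2 ^ ((1 : ℝ) / 4))) ((2 : ℝ) ^ ((1 : ℝ) / 4))) = preordering ![2 - X ^ 4] ∧
    (X - 1 : ℚ[X]) ∈ preordering ![X, X ^ 2 - 2, 3 - X ^ 2] := by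
  refine ⟨K1_eq, K2_eq, K3_eq, ?_⟩
  rw [← K2_eq]
  intro t ht
  have h1 : (1 : ℝ) ≤ √2 := by
    rw [Real.one_le_sqrt]; norm_num
  simpa using h1.trans ht.1

end Pool.Agent.Results.MP_57f692_ag.PosIntervals
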